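import Mathlib

/-! MP_619a4d_co (partial): Q1 is equivalent to its version for geodetic graphs of diameter at most two. -/

namespace Pool.Agent.Results.MP_619a4d_co.DiameterTwoReduction

/-- no induced `C₄` and no induced `K₄ - e`: there are no distinct `a`, `b` that are both common
neighbours of two distinct nonadjacent vertices `u`, `v`. -/
def CDFree {V : Type} (H : SimpleGraph V) : Prop :=
  ∀ u v a b : V, u ≠ v → ¬ H.Adj u v → H.Adj u a → H.Adj a v → H.Adj u b → H.Adj b v → a = b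

/-- geodetic: connected, with a unique shortest walk (hence path) between any two vertices. -/
def Geodetic {V : Type} (G : SimpleGraph V) : Prop :=
  G.Connected ∧ ∀ (u v : V) (p q : G.Walk u v),
    p.length = G.dist u v → q.length = G.dist u v → p = q

/-- `H` is an induced subgraph of some finite geodetic graph. -/
def EmbedsGeodetic {V : Type} (H : SimpleGraph V) : Prop :=
  ∃ (W : Type) (_ : Finite W) (G : SimpleGraph W), Geodetic G ∧ Nonempty (H ↪g G)

/-- `H` is an induced subgraph of some finite geodetic graph of diameter at most two. -/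
def EmbedsGeodeticTwo {V : Type} (H : SimpleGraph V) : Prop :=
  ∃ (W : Type) (_ : Finite W) (G : SimpleGraph W), Geodetic G ∧ (∀ u v, G.dist u v ≤ 2) ∧
    Nonempty (H ↪g G)

variable {V : Type}

/-- adjacency of the enlarged graph: to `H` two paths of length three are added between any two
distinct nonadjacent vertices (one for each ordered pair). -/
def plusAdj (H : SimpleGraph V) : V ⊕ ((V × V) × Bool) → V ⊕ ((V × V) × Bool) → Prop
  | Sum.inl u, Sum.inl v => H.Adj u v
  | Sum.inl u, Sum.inr (ab, false) => u = ab.1 ∧ ab.1 ≠ ab.2 ∧ ¬ H.Adj ab.1 ab.2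
  | Sum.inl u, Sum.inr (ab, true) => u = ab.2 ∧ ab.1 ≠ ab.2 ∧ ¬ H.Adj ab.1 ab.2
  | Sum.inr (ab, false), Sum.inl u => u = ab.1 ∧ ab.1 ≠ ab.2 ∧ ¬ H.Adj ab.1 ab.2
  | Sum.inr (ab, true), Sum.inl u => u = ab.2 ∧ ab.1 ≠ ab.2 ∧ ¬ H.Adj ab.1 ab.2
  | Sum.inr (ab, s), Sum.inr (cd, t) => ab = cd ∧ s ≠ t

/-- the enlarged graph -/
def plus (H : SimpleGraph V) : SimpleGraph (V ⊕ ((V × V) × Bool)) where
  Adj := plusAdj H
  symm := ⟨by
    rintro (u | ⟨ab, s⟩) (v | ⟨cd, t⟩) h
    · exact SimpleGraph.Adj.symm (G := H) h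
    · cases t <;> exact h
    · cases s <;> exact h
    · cases s <;> cases t <;> exact ⟨h.1.symm, h.2.symm⟩⟩
  loopless := ⟨by
    rintro (u | ⟨ab, s⟩) h
    · exact H.irrefl h
    · cases s <;> exact h.2 rfl⟩

theorem plus_free {H : SimpleGraph V} (hH : CDFree H) : CDFree (plus H) := by
  rintro (u | ⟨⟨a, b⟩, s⟩) (v | ⟨⟨c, d⟩, t⟩) (x | ⟨⟨e, f⟩, i⟩) (y | ⟨⟨g, h⟩, j⟩) huv hnadj h1 h2 h3 h4
  all_goals
    first
    | (exact congrArg Sum.inl (hH u v x y (fun h => huv (by rw [h])) hnadj h1 h2 h3 h4))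
    | (simp only [plus] at hnadj h1 h2 h3 h4
       (try cases s) <;> (try cases t) <;> (try cases i) <;> (try cases j) <;>
       simp_all [plusAdj])
  all_goals
    first
    | exact h2.2.2 h1.symm
    | exact h4.2.2 h3.symm
    | exact h4.2.2 h2.symm
    | exact h2.2.2 h4.symm

/-- in a geodetic graph, a common neighbour of two distinct vertices close to `x` is close to `x` -/
theorem close_step {W : Type} {G : SimpleGraph W} (hG : Geodetic G) {u v z x : W} (huv : u ≠ v)
    (hzu : G.Adj z u) (hzv : G.Adj z v) (hu : G.dist u x ≤ 2) (hv : G.dist v x ≤ 2) :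
    G.dist z x ≤ 2 := by
  by_contra hcon
  push Not at hcon
  obtain ⟨pu, hpu⟩ := hG.1.exists_walk_length_eq_dist u x
  obtain ⟨pv, hpv⟩ := hG.1.exists_walk_length_eq_dist v x
  have h1 := SimpleGraph.dist_le (SimpleGraph.Walk.cons hzu pu)
  have h2 := SimpleGraph.dist_le (SimpleGraph.Walk.cons hzv pv)
  rw [SimpleGraph.Walk.length_cons] at h1 h2
  have h3 := hG.2 z x (SimpleGraph.Walk.cons hzu pu) (SimpleGraph.Walk.cons hzv pv)
    (by rw [SimpleGraph.Walk.length_cons]; omega) (by rw [SimpleGraph.Walk.length_cons]; omega)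
  have h4 := congrArg (fun w : G.Walk z x => w.getVert 1) h3
  simp at h4
  exact huv h4

/-- the enlarged graph forces distances at most two between the old vertices -/
theorem forced {W : Type} {G : SimpleGraph W} (hG : Geodetic G) {H : SimpleGraph V}
    (φ : plus H ↪g G) (u v : V) : G.dist (φ (Sum.inl u)) (φ (Sum.inl v)) ≤ 2 := by
  by_cases huv : u = v
  · subst huv
    simp
  by_cases hadj : H.Adj u v
  · have : G.Adj (φ (Sum.inl u)) (φ (Sum.inl v)) := φ.map_rel_iff.mpr hadj
    rw [SimpleGraph.dist_eq_one_iff_adj.mpr this]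
    omega
  have hadj' : ¬ H.Adj v u := fun h => hadj h.symm
  have a1 : (plus H).Adj (Sum.inl u) (Sum.inr ((u, v), false)) := ⟨rfl, huv, hadj⟩
  have a2 : (plus H).Adj (Sum.inr ((u, v), false)) (Sum.inr ((u, v), true)) := ⟨rfl, by simp⟩
  have a3 : (plus H).Adj (Sum.inr ((u, v), true)) (Sum.inl v) := ⟨rfl, huv, hadj⟩
  have b1 : (plus H).Adj (Sum.inl u) (Sum.inr ((v, u), true)) := ⟨rfl, Ne.symm huv, hadj'⟩
  have b2 : (plus H).Adj (Sum.inr ((v, u), true)) (Sum.inr ((v, u), false)) := ⟨rfl, by simp⟩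
  have b3 : (plus H).Adj (Sum.inr ((v, u), false)) (Sum.inl v) := ⟨rfl, Ne.symm huv, hadj'⟩
  let p : G.Walk (φ (Sum.inl u)) (φ (Sum.inl v)) :=
    SimpleGraph.Walk.cons (φ.map_rel_iff.mpr a1) (SimpleGraph.Walk.cons (φ.map_rel_iff.mpr a2)
      (SimpleGraph.Walk.cons (φ.map_rel_iff.mpr a3) SimpleGraph.Walk.nil))
  let q : G.Walk (φ (Sum.inl u)) (φ (Sum.inl v)) :=
    SimpleGraph.Walk.cons (φ.map_rel_iff.mpr b1) (SimpleGraph.Walk.cons (φ.map_rel_iff.mpr b2)
      (SimpleGraph.Walk.cons (φ.map_rel_iff.mpr b3) SimpleGraph.Walk.nil))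
  have hp : p.length = 3 := rfl
  have hq : q.length = 3 := rfl
  have hle := SimpleGraph.dist_le p
  by_contra hcon
  push Not at hcon
  have h3 := hG.2 _ _ p q (by omega) (by omega)
  have h4 := congrArg (fun w : G.Walk (φ (Sum.inl u)) (φ (Sum.inl v)) => w.getVert 1) h3
  have h5 : φ (Sum.inr ((u, v), false)) = φ (Sum.inr ((v, u), true)) := h4
  have h6 := φ.injective h5
  simp at h6

/-- a maximal set of vertices at pairwise distance at most two induces a geodetic graph of diameter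
at most two. -/
theorem maximal_close {W : Type} [Finite W] {G : SimpleGraph W} (hG : Geodetic G) (A : Set W)
    (hA : ∀ x ∈ A, ∀ y ∈ A, G.dist x y ≤ 2) :
    ∃ F : Set W, A ⊆ F ∧ Geodetic (G.induce F) ∧ ∀ u v, (G.induce F).dist u v ≤ 2 := by
  classical
  have hfin : {B : Set W | A ⊆ B ∧ ∀ x ∈ B, ∀ y ∈ B, G.dist x y ≤ 2}.Finite := Set.toFinite _
  obtain ⟨F, hF⟩ := hfin.exists_maximal ⟨A, ⟨subset_rfl, hA⟩⟩
  obtain ⟨⟨hAF, hFd⟩, hmax⟩ := hF
  have hins : ∀ z : W, (∀ x ∈ F, G.dist z x ≤ 2) → z ∈ F := by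
    intro z hz
    have h1 : insert z F ∈ {B : Set W | A ⊆ B ∧ ∀ x ∈ B, ∀ y ∈ B, G.dist x y ≤ 2} := by
      refine ⟨hAF.trans (Set.subset_insert _ _), ?_⟩
      rintro x (rfl | hx) y (rfl | hy)
      · simp
      · exact hz y hy
      · rw [SimpleGraph.dist_comm]; exact hz x hx
      · exact hFd x hx y hy
    exact hmax h1 (Set.subset_insert _ _) (Set.mem_insert _ _)
  have hclosed : ∀ u ∈ F, ∀ v ∈ F, u ≠ v → ∀ z, G.Adj z u → G.Adj z v → z ∈ F := by
    intro u hu v hv huv z hzu hzv
    exact hins z fun x hx => close_step hG huv hzu hzv (hFd u hu x hx) (hFd v hv x hx)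
  have hne : F.Nonempty := by
    by_contra hcon
    rw [Set.not_nonempty_iff_eq_empty] at hcon
    obtain ⟨w⟩ := hG.1.nonempty
    have := hins w (fun x hx => by rw [hcon] at hx; exact absurd hx (Set.notMem_empty x))
    rw [hcon] at this
    exact this
  -- short walks inside F
  have hwalk : ∀ u v : F, ∃ p : (G.induce F).Walk u v, p.length = G.dist (u : W) (v : W) := by
    rintro ⟨u, hu⟩ ⟨v, hv⟩
    by_cases huv : u = v
    · subst huv
      exact ⟨SimpleGraph.Walk.nil, by simp⟩
    by_cases hadj : G.Adj u v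
    · have h1 : (G.induce F).Adj ⟨u, hu⟩ ⟨v, hv⟩ := hadj
      refine ⟨SimpleGraph.Walk.cons h1 SimpleGraph.Walk.nil, ?_⟩
      rw [SimpleGraph.dist_eq_one_iff_adj.mpr hadj]
      rfl
    · obtain ⟨p, hp⟩ := hG.1.exists_walk_length_eq_dist u v
      have hd := hFd u hu v hv
      cases p with
      | nil => exact absurd rfl huv
      | cons h1 p1 =>
        cases p1 with
        | nil => exact absurd h1 hadj
        | cons h2 p2 =>
          cases p2 with
          | nil =>
            rename_i z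
            have hz : z ∈ F := hclosed u hu v hv huv z h1.symm h2
            have e1 : (G.induce F).Adj ⟨u, hu⟩ ⟨z, hz⟩ := h1
            have e2 : (G.induce F).Adj ⟨z, hz⟩ ⟨v, hv⟩ := h2
            exact ⟨SimpleGraph.Walk.cons e1 (SimpleGraph.Walk.cons e2 SimpleGraph.Walk.nil), hp⟩
          | cons h3 p3 =>
            exfalso
            simp only [SimpleGraph.Walk.length_cons] at hp
            omega
  let ι : G.induce F →g G := (SimpleGraph.Embedding.induce F).toHom
  have hι : Function.Injective ι := Subtype.val_injective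
  have hdist : ∀ u v : F, (G.induce F).dist u v = G.dist (u : W) (v : W) := by
    intro u v
    obtain ⟨p, hp⟩ := hwalk u v
    refine le_antisymm ((SimpleGraph.dist_le p).trans hp.le) ?_
    have hr : (G.induce F).Reachable u v := ⟨p⟩
    obtain ⟨q, hq⟩ := hr.exists_walk_length_eq_dist
    rw [← hq, ← SimpleGraph.Walk.length_map ι q]
    exact SimpleGraph.dist_le _
  refine ⟨F, hAF, ⟨?_, ?_⟩, ?_⟩
  · have : Nonempty F := hne.to_subtype
    exact ⟨fun u v => ⟨(hwalk u v).choose⟩⟩
  · intro u v p q hp hq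
    apply SimpleGraph.Walk.map_injective_of_injective hι u v
    apply hG.2
    · rw [SimpleGraph.Walk.length_map, hp, hdist]; rfl
    · rw [SimpleGraph.Walk.length_map, hq, hdist]; rfl
  · intro u v
    rw [hdist]
    exact hFd u u.2 v v.2

/-- Q1 holds if and only if it holds with geodetic graphs of diameter at most two as hosts. -/
theorem result :
    (∀ (V : Type) (_ : Finite V) (H : SimpleGraph V), CDFree H → EmbedsGeodetic H) ↔
    (∀ (V : Type) (_ : Finite V) (H : SimpleGraph V), CDFree H → EmbedsGeodeticTwo H) := by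
  constructor
  · intro h V hV H hH
    obtain ⟨W, hW, G, hG, ⟨φ⟩⟩ := h (V ⊕ ((V × V) × Bool)) inferInstance (plus H) (plus_free hH)
    obtain ⟨F, hAF, hF1, hF2⟩ := maximal_close hG (Set.range fun u : V => φ (Sum.inl u)) (by
      rintro _ ⟨u, rfl⟩ _ ⟨v, rfl⟩
      exact forced hG φ u v)
    refine ⟨F, inferInstance, G.induce F, hF1, hF2, ⟨⟨⟨fun v => ⟨φ (Sum.inl v), hAF ⟨v, rfl⟩⟩, ?_⟩, ?_⟩⟩⟩
    · intro u v huv
      have h1 := congrArg Subtype.val huv
      have h2 := φ.injective h1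
      exact Sum.inl_injective h2
    · intro u v
      exact φ.map_rel_iff (a := Sum.inl u) (b := Sum.inl v)
  · intro h V hV H hH
    obtain ⟨W, hW, G, hG, _, hφ⟩ := h V hV H hH
    exact ⟨W, hW, G, hG, hφ⟩

end Pool.Agent.Results.MP_619a4d_co.DiameterTwoReduction
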